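import Pool.Agent.Helper41.OA.St.Stubs

set_option autoImplicit false

/-!
# Project OA, piece OA-6: `α` is bounded on `VMO_A ⊗̂ H¹`
-/

namespace Pool.Agent.Helper67.OA

open Finset
open Pool.Agent.Helper41.OA

theorem norm_fourierCoeff_le (F : C(UnitAddCircle, ℂ)) (n : ℤ) : ‖fourierCoeff F n‖ ≤ ‖F‖ := by
  rw [fourierCoeff]
  have h := MeasureTheory.norm_integral_le_of_norm_le_const (μ := AddCircle.haarAddCircle)
    (f := fun t : UnitAddCircle => fourier (-n) t • F t) (C := ‖F‖)
    (Filter.Eventually.of_forall fun t => by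
      rw [norm_smul]
      have h1 : ‖(fourier (-n) t : ℂ)‖ = 1 := by
        rw [fourier_apply]
        exact Circle.norm_coe _
      rw [h1, one_mul]
      exact F.norm_coe_le_norm t)
  simpa using h

/-- One Hadamard product. -/
theorem term_le (d : ℕ) (hd : 0 < d) {f g : ℂ → ℂ} {a b : ℕ → ℂ} (ha : HasTaylor a f)
    (hb : HasTaylor b g) (M : ℕ) :
    ENNReal.ofReal ‖∑ n ∈ range M, al d n * (a n * b n)‖ ≤ 4 * (normVMO f * normH1 g) := by
  have hcirc : ∀ A : ℝ, 0 ≤ A → normH1 g ≤ ENNReal.ofReal A → ∀ r : ℝ, 0 < r → r < 1 →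
      Real.circleAverage (fun z => ‖g z‖) 0 r ≤ A := by
    intro A hA h r h0 h1
    have h2 : ENNReal.ofReal (Real.circleAverage (fun z => ‖g z‖) 0 r) ≤ normH1 g :=
      le_iSup_of_le r (le_iSup_of_le h0 (le_iSup_of_le h1 le_rfl))
    exact (ENNReal.ofReal_le_ofReal_iff hA).1 (h2.trans h)
  rcases eq_or_ne (normH1 g) 0 with h0 | h0
  · have hb0 : ∀ n, b n = 0 := by
      intro n
      have h1 := St.paley hb (A := 0) (hcirc 0 le_rfl (by rw [h0]; exact zero_le)) 1
        (fun _ => n) (fun k hk => by omega)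
      simp only [sum_range_one] at h1
      have h2 : ‖b n‖ ^ 2 ≤ 0 := by simpa using h1
      have h3 : ‖b n‖ = 0 := by nlinarith [norm_nonneg (b n)]
      exact norm_eq_zero.1 h3
    simp [hb0]
  rcases eq_or_ne (normH1 g) ⊤ with hT | hT
  · rcases eq_or_ne (normVMO f) 0 with hf | hf
    · have ha0 : ∀ n, a n = 0 := by
        intro n
        have h1 : ENNReal.ofReal ‖a n‖ ≤ normVMO f := by
          refine le_iInf fun F => le_iInf fun hF => ENNReal.ofReal_le_ofReal ?_
          have h2 : a = fun n : ℕ => fourierCoeff F n := St.taylor_unique ha hF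
          rw [h2]
          exact norm_fourierCoeff_le F n
        rw [hf] at h1
        have h2 : ‖a n‖ ≤ 0 := ENNReal.ofReal_eq_zero.1 (le_antisymm h1 zero_le)
        exact norm_le_zero_iff.1 h2
      simp [ha0]
    · rw [hT, ENNReal.mul_top hf, ENNReal.mul_top (by norm_num)]
      exact le_top
  · have h4 : (4 * normH1 g) ≠ 0 := mul_ne_zero (by norm_num) h0
    have h4T : (4 * normH1 g) ≠ ⊤ := ENNReal.mul_ne_top (by norm_num) hT
    have key : ENNReal.ofReal ‖∑ n ∈ range M, al d n * (a n * b n)‖ / (4 * normH1 g) ≤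
        normVMO f := by
      refine le_iInf fun F => le_iInf fun hF => ?_
      rw [ENNReal.div_le_iff h4 h4T]
      have h2 : a = fun n : ℕ => fourierCoeff F n := St.taylor_unique ha hF
      have h3 := St.pairing_one d hd F hb (A := (normH1 g).toReal)
        (hcirc _ ENNReal.toReal_nonneg (by rw [ENNReal.ofReal_toReal hT])) M
      rw [h2]
      refine (ENNReal.ofReal_le_ofReal h3).trans (le_of_eq ?_)
      rw [ENNReal.ofReal_mul (by positivity), ENNReal.ofReal_mul (by norm_num),
        ENNReal.ofReal_toReal hT, ENNReal.ofReal_ofNat]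
      ring
    rw [ENNReal.div_le_iff h4 h4T] at key
    refine key.trans (le_of_eq ?_)
    ring

/-- OA-6. `α` is bounded on `VMO_A ⊗̂ H¹` (uses OA-1, OA-5). -/
theorem pairing_VH (d : ℕ) (hd : 0 < d) {φ : ℂ → ℂ} {c : ℕ → ℂ} (hc : HasTaylor c φ)
    (M : ℕ) : ENNReal.ofReal ‖∑ n ∈ range M, al d n * c n‖ ≤ 4 * normVH φ := by
  have key : ENNReal.ofReal ‖∑ n ∈ range M, al d n * c n‖ / 4 ≤ normVH φ := by
    refine le_iInf fun f => le_iInf fun g => le_iInf fun a => le_iInf fun b => le_iInf fun c' =>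
      le_iInf fun ha => le_iInf fun hb => le_iInf fun hc' => le_iInf fun hs => ?_
    have hcc : c' = c := St.taylor_unique hc' hc
    subst hcc
    rw [ENNReal.div_le_iff (by norm_num) (by norm_num)]
    have hsum : HasSum (fun m => ∑ n ∈ range M, al d n * (a m n * b m n))
        (∑ n ∈ range M, al d n * c' n) :=
      hasSum_sum fun n _ => (hs n).mul_left (al d n)
    rw [← hsum.tsum_eq, ofReal_norm]
    refine (enorm_tsum_le_tsum_enorm).trans ?_
    rw [mul_comm, ← ENNReal.tsum_mul_left]
    refine ENNReal.tsum_le_tsum fun m => ?_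
    rw [← ofReal_norm]
    exact term_le d hd (ha m) (hb m) M
  rw [ENNReal.div_le_iff (by norm_num) (by norm_num)] at key
  rw [mul_comm]
  exact key

end Pool.Agent.Helper67.OA
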